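import Pool.Agent.W2helper1.LT.Stm

/-!
# Piece KP of the semiclassical kinetic inequality (positivity of the kernel)
-/

set_option autoImplicit false

open MeasureTheory Set Real Filter Topology

namespace Pool.Agent.W2helper56.LT4

open Pool.Agent.W2helper1.LT

noncomputable def psi (a w : ℝ) : ℝ := cosh a / cosh (w - a)

noncomputable def h (w : ℝ) : ℝ := w / sinh w

lemma tanh_sub_tanh (x y : ℝ) : tanh x - tanh y = sinh (x - y) / (cosh x * cosh y) := by
  have hx := (cosh_pos x).ne'
  have hy := (cosh_pos y).ne'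
  rw [tanh_eq_sinh_div_cosh, tanh_eq_sinh_div_cosh, sinh_sub]
  field_simp

lemma g_tanh (a : ℝ) : g (tanh a / 2) = 2 * a := by
  have h1 := artanh_eq_half_log (x := tanh a)
    ⟨(neg_one_lt_tanh a).le, (tanh_lt_one a).le⟩
  rw [artanh_tanh] at h1
  unfold g
  have h2 : (1 / 2 + tanh a / 2) / (1 / 2 - tanh a / 2) = (1 + tanh a) / (1 - tanh a) := by
    have h3 : (1 - tanh a) ≠ 0 := by linarith [tanh_lt_one a]
    have h4 : (1 / 2 - tanh a / 2) ≠ 0 := by
      intro h5
      apply h3
      linarith
    rw [div_eq_div_iff h4 h3]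
    ring
  rw [h2]
  linarith

lemma dg_ne {a b : ℝ} (hab : a ≠ b) :
    dg (tanh a / 2) (tanh b / 2) = 4 * (a - b) * cosh a * cosh b / sinh (a - b) := by
  have h1 : tanh a ≠ tanh b := fun h => hab (tanh_injective h)
  have h2 : ¬ (tanh a / 2 = tanh b / 2) := by
    intro h
    apply h1
    linarith
  unfold dg
  rw [if_neg h2, g_tanh, g_tanh]
  have h3 : tanh a / 2 - tanh b / 2 = sinh (a - b) / (2 * (cosh a * cosh b)) := by
    have := tanh_sub_tanh a b
    rw [← sub_div, this]
    field_simp
  rw [h3]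
  have hs : sinh (a - b) ≠ 0 := by
    rw [Ne, sinh_eq_zero]
    exact sub_ne_zero.2 hab
  have hx := (cosh_pos a).ne'
  have hy := (cosh_pos b).ne'
  field_simp
  ring

lemma dg_same (a : ℝ) : dg (tanh a / 2) (tanh a / 2) = 4 * cosh a ^ 2 := by
  unfold dg
  rw [if_pos rfl]
  have hx := (cosh_pos a).ne'
  have h1 : 1 / 4 - (tanh a / 2) ^ 2 = 1 / (4 * cosh a ^ 2) := by
    rw [tanh_eq_sinh_div_cosh]
    have := cosh_sq a
    field_simp
    rw [this]
    ring
  rw [h1]
  field_simp

lemma psi_psi_ne {a b : ℝ} (hab : a ≠ b) (w : ℝ) :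
    psi a w * psi b w = cosh a * cosh b / sinh (a - b) * (tanh (w - b) - tanh (w - a)) := by
  have hs : sinh (a - b) ≠ 0 := by
    rw [Ne, sinh_eq_zero]
    exact sub_ne_zero.2 hab
  have hx := (cosh_pos (w - a)).ne'
  have hy := (cosh_pos (w - b)).ne'
  rw [tanh_sub_tanh]
  have : w - b - (w - a) = a - b := by ring
  rw [this]
  unfold psi
  field_simp

lemma cosh_shift (w a : ℝ) : exp (-|a|) * cosh w ≤ cosh (w - a) := by
  rw [cosh_eq, cosh_eq]
  have h1 : exp (-|a|) * exp w ≤ exp (w - a) := by
    rw [← exp_add]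
    apply exp_le_exp.2
    have := neg_abs_le a
    have := le_abs_self a
    linarith
  have h2 : exp (-|a|) * exp (-w) ≤ exp (-(w - a)) := by
    rw [← exp_add]
    apply exp_le_exp.2
    have := neg_abs_le a
    have := le_abs_self a
    linarith
  linarith

lemma continuous_psi (a : ℝ) : Continuous (psi a) := by
  unfold psi
  exact continuous_const.div (continuous_cosh.comp (continuous_id.sub continuous_const))
    (fun w => (cosh_pos _).ne')

lemma psi_nonneg (a w : ℝ) : 0 ≤ psi a w := by
  unfold psi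
  exact div_nonneg (cosh_pos a).le (cosh_pos _).le

lemma psi_le (a w : ℝ) : psi a w ≤ cosh a * exp |a| * psi 0 w := by
  unfold psi
  have h1 := cosh_shift w a
  have hc := cosh_pos (w - a)
  have hw := cosh_pos w
  rw [cosh_zero, sub_zero, div_le_iff₀ hc]
  have h2 : exp |a| * (exp (-|a|) * cosh w) ≤ exp |a| * cosh (w - a) :=
    mul_le_mul_of_nonneg_left h1 (exp_pos _).le
  rw [← mul_assoc, ← exp_add, add_neg_cancel, exp_zero, one_mul] at h2
  have h3 : 1 ≤ exp |a| * cosh (w - a) / cosh w := by
    rw [le_div_iff₀ hw, one_mul]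
    exact h2
  calc cosh a = cosh a * 1 := by ring
    _ ≤ cosh a * (exp |a| * cosh (w - a) / cosh w) :=
        mul_le_mul_of_nonneg_left h3 (cosh_pos a).le
    _ = _ := by ring

lemma int_psi_ne (hT : T1) {a b : ℝ} (hab : a ≠ b) :
    Integrable (fun w => psi a w * psi b w) ∧
      2 * ∫ w, psi a w * psi b w = dg (tanh a / 2) (tanh b / 2) := by
  obtain ⟨h1, h2⟩ := hT a b
  have h3 : (fun w => psi a w * psi b w) =
      fun w => cosh a * cosh b / sinh (a - b) * (tanh (w - b) - tanh (w - a)) := by
    funext w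
    exact psi_psi_ne hab w
  rw [h3]
  refine ⟨h1.const_mul _, ?_⟩
  rw [integral_const_mul, h2, dg_ne hab]
  ring

lemma tendsto_tanh_atTop : Tendsto tanh atTop (𝓝 1) := by
  have h1 : ∀ x : ℝ, tanh x = 1 - 2 / (exp (2 * x) + 1) := by
    intro x
    rw [tanh_eq]
    have h2 : exp (2 * x) = exp x * exp x := by rw [← exp_add]; ring_nf
    have h3 : exp (-x) = (exp x)⁻¹ := exp_neg x
    rw [h2, h3]
    have := exp_pos x
    field_simp
    ring
  have h4 : Tendsto (fun x : ℝ => 1 - 2 / (exp (2 * x) + 1)) atTop (𝓝 (1 - 0)) := by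
    apply Tendsto.const_sub
    apply Tendsto.const_div_atTop
    apply tendsto_atTop_add_const_right
    exact tendsto_exp_atTop.comp (tendsto_id.const_mul_atTop (by norm_num))
  rw [sub_zero] at h4
  exact h4.congr (fun x => (h1 x).symm)

lemma tendsto_tanh_atBot : Tendsto tanh atBot (𝓝 (-1)) := by
  have h1 : Tendsto (fun x : ℝ => - tanh (-x)) atBot (𝓝 (-1)) :=
    (tendsto_tanh_atTop.comp tendsto_neg_atBot_atTop).neg
  exact h1.congr (fun x => by rw [tanh_neg, neg_neg])

lemma hasDerivAt_tanh (x : ℝ) : HasDerivAt tanh (psi 0 x * psi 0 x) x := by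
  have h1 : tanh = fun x => sinh x / cosh x := by
    funext x
    exact tanh_eq_sinh_div_cosh x
  rw [h1]
  have h2 := (hasDerivAt_sinh x).div (hasDerivAt_cosh x) (cosh_pos x).ne'
  refine h2.congr_deriv ?_
  unfold psi
  rw [cosh_zero, sub_zero]
  have := cosh_sq x
  have h3 := (cosh_pos x).ne'
  field_simp
  rw [this]
  ring

lemma int_psi_zero (hT : T1) : Integrable (fun w => psi 0 w * psi 0 w) ∧
    ∫ w, psi 0 w * psi 0 w = 2 := by
  have h1 := (int_psi_ne hT (a := 0) (b := 1) (by norm_num)).1
  -- psi 0 ≤ C psi 1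
  have h2 : ∀ w, psi 0 w ≤ exp 1 * psi 1 w := by
    intro w
    unfold psi
    rw [cosh_zero, sub_zero]
    have h3 := cosh_shift (w - 1) (-1)
    have h4 : w - 1 - -1 = w := by ring
    rw [h4, abs_neg, abs_one] at h3
    have hw := cosh_pos w
    have hw1 := cosh_pos (w - 1)
    have h5 : exp 1 * (exp (-1) * cosh (w - 1)) ≤ exp 1 * cosh w :=
      mul_le_mul_of_nonneg_left h3 (exp_pos _).le
    rw [← mul_assoc, ← exp_add, add_neg_cancel, exp_zero, one_mul] at h5
    have h6 : (1 : ℝ) ≤ cosh 1 := one_le_cosh 1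
    rw [div_le_iff₀ hw]
    have h7 : 1 ≤ exp 1 * cosh w / cosh (w - 1) := by
      rw [le_div_iff₀ hw1, one_mul]
      exact h5
    calc (1 : ℝ) ≤ exp 1 * cosh w / cosh (w - 1) := h7
      _ ≤ cosh 1 * (exp 1 * cosh w / cosh (w - 1)) := le_mul_of_one_le_left (by positivity) h6
      _ = _ := by ring
  have hint : Integrable (fun w => psi 0 w * psi 0 w) := by
    refine (h1.const_mul (exp 1)).mono'
      ((continuous_psi 0).mul (continuous_psi 0)).aestronglyMeasurable ?_
    filter_upwards with w
    rw [norm_of_nonneg (mul_nonneg (psi_nonneg _ _) (psi_nonneg _ _))]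
    calc psi 0 w * psi 0 w ≤ psi 0 w * (exp 1 * psi 1 w) :=
          mul_le_mul_of_nonneg_left (h2 w) (psi_nonneg _ _)
      _ = _ := by ring
  refine ⟨hint, ?_⟩
  have := integral_of_hasDerivAt_of_tendsto (fun x => hasDerivAt_tanh x) hint
    tendsto_tanh_atBot tendsto_tanh_atTop
  rw [this]
  norm_num

lemma int_psi_same (hT : T1) (a : ℝ) :
    Integrable (fun w => psi a w * psi a w) ∧
      2 * ∫ w, psi a w * psi a w = dg (tanh a / 2) (tanh a / 2) := by
  obtain ⟨h1, h2⟩ := int_psi_zero hT
  have h3 : (fun w => psi a w * psi a w) =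
      fun w => cosh a ^ 2 * (psi 0 (w - a) * psi 0 (w - a)) := by
    funext w
    unfold psi
    rw [cosh_zero, sub_zero]
    ring
  rw [h3]
  refine ⟨(h1.comp_sub_right a).const_mul _, ?_⟩
  rw [integral_const_mul, integral_sub_right_eq_self (fun w => psi 0 w * psi 0 w) a, h2,
    dg_same]
  ring

lemma int_psi (hT : T1) (a b : ℝ) :
    Integrable (fun w => psi a w * psi b w) ∧
      ∫ w, psi a w * psi b w = dg (tanh a / 2) (tanh b / 2) / 2 := by
  by_cases hab : a = b
  · subst hab
    have := int_psi_same hT a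
    refine ⟨this.1, ?_⟩
    rw [← this.2]
    ring
  · have := int_psi_ne hT hab
    refine ⟨this.1, ?_⟩
    rw [← this.2]
    ring

lemma measurable_h : Measurable h := by
  unfold h
  exact measurable_id.div continuous_sinh.measurable

lemma psi_zero_h (w : ℝ) : psi 0 w * h w = w / (sinh w * cosh w) := by
  unfold psi h
  rw [cosh_zero, sub_zero]
  have := (cosh_pos w).ne'
  rw [div_mul_div_comm, one_mul, mul_comm (cosh w)]

lemma h_nonneg (w : ℝ) : 0 ≤ h w := by
  unfold h
  rcases le_total 0 w with hw | hw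
  · exact div_nonneg hw (sinh_nonneg_iff.2 hw)
  · exact div_nonneg_of_nonpos hw (sinh_nonpos_iff.2 hw)

lemma int_psi_h_integrable (hJ : J0) (a : ℝ) : Integrable (fun w => psi a w * h w) := by
  have h1 : Integrable (fun w => psi 0 w * h w) := by
    have := hJ.1
    refine this.congr ?_
    filter_upwards with w
    rw [psi_zero_h]
  refine (h1.const_mul (cosh a * exp |a|)).mono'
    ((continuous_psi a).measurable.mul measurable_h).aestronglyMeasurable ?_
  filter_upwards with w
  rw [norm_of_nonneg (mul_nonneg (psi_nonneg _ _) (h_nonneg _))]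
  calc psi a w * h w ≤ (cosh a * exp |a| * psi 0 w) * h w :=
        mul_le_mul_of_nonneg_right (psi_le a w) (h_nonneg w)
    _ = _ := by ring

lemma psi_h_sub (a : ℝ) {w : ℝ} (hw : w ≠ 0) :
    psi a w * h w - psi 0 w * h w = w * (tanh w - tanh (w - a)) := by
  have hs : sinh w ≠ 0 := by
    rw [Ne, sinh_eq_zero]
    exact hw
  have hc := (cosh_pos w).ne'
  have hc' := (cosh_pos (w - a)).ne'
  rw [tanh_sub_tanh]
  have h0 : w - (w - a) = a := by ring
  rw [h0]
  unfold psi h
  rw [cosh_zero, sub_zero]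
  have h1 : cosh (w - a) = cosh w * cosh a - sinh w * sinh a := cosh_sub w a
  field_simp
  rw [h1]
  ring

lemma int_psi_h (hT : T1) (hJ : J0) (a : ℝ) :
    ∫ w, psi a w * h w = a ^ 2 + π ^ 2 / 4 := by
  have hi := int_psi_h_integrable hJ a
  have hi0 := int_psi_h_integrable hJ 0
  have h0 : ∫ w, psi 0 w * h w = π ^ 2 / 4 := by
    rw [← hJ.2]
    apply integral_congr_ae
    filter_upwards with w
    rw [psi_zero_h]
  have hae : (fun w => psi a w * h w - psi 0 w * h w) =ᵐ[volume]
      fun w => w * (tanh w - tanh (w - a)) := by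
    have : ∀ᵐ w : ℝ, w ≠ 0 := by
      rw [ae_iff]
      simp
    filter_upwards [this] with w hw
    exact psi_h_sub a hw
  set F : ℝ → ℝ := fun w => w * (tanh w - tanh (w - a)) with hF
  have hFint : Integrable F := (hi.sub hi0).congr hae
  set E : ℝ → ℝ := fun u => tanh (u + a / 2) - tanh (u - a / 2) with hE
  obtain ⟨hE1, hE2⟩ := hT (a / 2) (-(a / 2))
  have hEint : Integrable E := by
    refine hE1.congr ?_
    filter_upwards with u
    simp only [hE, sub_neg_eq_add]
  have hEI : ∫ u, E u = 2 * a := by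
    have : ∫ u, E u = ∫ w : ℝ, (tanh (w - -(a / 2)) - tanh (w - a / 2)) := by
      apply integral_congr_ae
      filter_upwards with u
      simp only [hE, sub_neg_eq_add]
    rw [this, hE2]
    ring
  have hshift : ∀ u, F (u + a / 2) = u * E u + a / 2 * E u := by
    intro u
    simp only [hF, hE]
    have : u + a / 2 - a = u - a / 2 := by ring
    rw [this]
    ring
  have hFs : Integrable (fun u => F (u + a / 2)) := hFint.comp_add_right (a / 2)
  have huE : Integrable (fun u => u * E u) := by
    refine (hFs.sub (hEint.const_mul (a / 2))).congr ?_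
    filter_upwards with u
    simp only [Pi.sub_apply]
    rw [hshift u]
    ring
  have hodd : ∫ u, u * E u = 0 := by
    have h1 := integral_neg_eq_self (fun u : ℝ => u * E u) volume
    have h2 : (fun u : ℝ => (-u) * E (-u)) = fun u => - (u * E u) := by
      funext u
      simp only [hE]
      have e1 : -u + a / 2 = -(u - a / 2) := by ring
      have e2 : -u - a / 2 = -(u + a / 2) := by ring
      rw [e1, e2, tanh_neg, tanh_neg]
      ring
    rw [h2, integral_neg] at h1
    linarith
  have hF2 : ∫ w, F w = a ^ 2 := by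
    rw [← integral_add_right_eq_self F (a / 2)]
    have : (fun u => F (u + a / 2)) = fun u => u * E u + a / 2 * E u := by
      funext u
      exact hshift u
    rw [this, integral_add huE (hEint.const_mul _), hodd, integral_const_mul, hEI]
    ring
  have h3 : ∫ w, (psi a w * h w - psi 0 w * h w) = a ^ 2 := by
    rw [integral_congr_ae hae, hF2]
  rw [integral_sub hi hi0, h0] at h3
  linarith

theorem kp (hT : T1) (hJ2 : J2) (hJ0 : J0) : KP := by
  intro n e c he
  have hex : ∀ i, ∃ a : ℝ, e i = tanh a / 2 := by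
    intro i
    have h1 := abs_lt.1 (he i)
    refine ⟨artanh (2 * e i), ?_⟩
    rw [tanh_artanh ⟨by linarith [h1.1], by linarith [h1.2]⟩]
    ring
  choose a ha using hex
  have hh : Integrable (fun w => h w * h w) ∧ ∫ w, h w * h w = π ^ 2 / 3 := by
    have e1 : (fun w : ℝ => (w / sinh w) ^ 2) = fun w => h w * h w := by
      funext w
      unfold h
      ring
    obtain ⟨j1, j2⟩ := hJ2
    rw [e1] at j1 j2
    exact ⟨j1, j2⟩
  -- products
  have hprod : ∀ i j, Integrable (fun w => (psi (a i) w - h w) * (psi (a j) w - h w)) ∧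
      2 * ∫ w, (psi (a i) w - h w) * (psi (a j) w - h w) =
        dg (e i) (e j) - (g (e i) ^ 2 + g (e j) ^ 2) / 2 - π ^ 2 / 3 := by
    intro i j
    obtain ⟨p1, p2⟩ := int_psi hT (a i) (a j)
    have q1 := int_psi_h_integrable hJ0 (a i)
    have q2 := int_psi_h_integrable hJ0 (a j)
    have r1 := int_psi_h hT hJ0 (a i)
    have r2 := int_psi_h hT hJ0 (a j)
    have e1 : (fun w => (psi (a i) w - h w) * (psi (a j) w - h w)) =
        fun w => (psi (a i) w * psi (a j) w - psi (a i) w * h w) -
          (psi (a j) w * h w - h w * h w) := by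
      funext w
      ring
    rw [e1]
    refine ⟨(p1.sub q1).sub (q2.sub hh.1), ?_⟩
    have s1 : ∫ w, ((psi (a i) w * psi (a j) w - psi (a i) w * h w) -
          (psi (a j) w * h w - h w * h w)) =
        (∫ w, (psi (a i) w * psi (a j) w - psi (a i) w * h w)) -
          ∫ w, (psi (a j) w * h w - h w * h w) := integral_sub (p1.sub q1) (q2.sub hh.1)
    rw [s1, integral_sub p1 q1, integral_sub q2 hh.1,
      p2, r1, r2, hh.2, ha i, ha j, g_tanh, g_tanh]
    ring
  have hsq : ∀ w, (∑ i, c i * (psi (a i) w - h w)) ^ 2 =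
      ∑ i, ∑ j, c i * c j * ((psi (a i) w - h w) * (psi (a j) w - h w)) := by
    intro w
    rw [sq, Finset.sum_mul_sum]
    refine Finset.sum_congr rfl fun i _ => Finset.sum_congr rfl fun j _ => ?_
    ring
  have hnn : 0 ≤ ∫ w, (∑ i, c i * (psi (a i) w - h w)) ^ 2 :=
    integral_nonneg fun w => sq_nonneg _
  have hI : ∫ w, (∑ i, c i * (psi (a i) w - h w)) ^ 2 =
      ∑ i, ∑ j, c i * c j * ∫ w, ((psi (a i) w - h w) * (psi (a j) w - h w)) := by
    have e1 : (fun w => (∑ i, c i * (psi (a i) w - h w)) ^ 2) =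
        fun w => ∑ i, ∑ j, c i * c j * ((psi (a i) w - h w) * (psi (a j) w - h w)) := by
      funext w
      exact hsq w
    rw [e1, integral_finsetSum]
    · refine Finset.sum_congr rfl fun i _ => ?_
      rw [integral_finsetSum]
      · refine Finset.sum_congr rfl fun j _ => ?_
        rw [integral_const_mul]
      · intro j _
        exact (hprod i j).1.const_mul _
    · intro i _
      apply integrable_finsetSum
      intro j _
      exact (hprod i j).1.const_mul _
  have hfin : ∑ i, ∑ j, c i * c j *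
      (dg (e i) (e j) - (g (e i) ^ 2 + g (e j) ^ 2) / 2 - π ^ 2 / 3) =
      2 * ∫ w, (∑ i, c i * (psi (a i) w - h w)) ^ 2 := by
    rw [hI, Finset.mul_sum]
    refine Finset.sum_congr rfl fun i _ => ?_
    rw [Finset.mul_sum]
    refine Finset.sum_congr rfl fun j _ => ?_
    rw [← (hprod i j).2]
    ring
  rw [hfin]
  linarith

end Pool.Agent.W2helper56.LT4
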